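import Pool.Agent.OHG.Defs

set_option autoImplicit false

open PowerSeries Finset

namespace Pool.Agent.OHG

variable {V : Type} [Fintype V] [DecidableEq V]

/-- The product of the sign of `v` and of all weights at `v` except the weight of the edge to `w`. -/
noncomputable def oth (D : Data V) (v w : V) : ℤ :=
  D.sgn v * (∏ k ∈ D.leaf v, (k : ℤ)) * ∏ x ∈ (D.nbr v).erase w, D.wt v x

theorem mem_nbr {D : Data V} {v w : V} : w ∈ D.nbr v ↔ D.graph.Adj v w := by
  simp [Data.nbr]

private theorem j1_on_comm (D : Data V) (v w u : V) : D.On v w u ↔ D.On w v u := by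
  unfold Data.On
  rw [SimpleGraph.dist_comm (u := w) (v := u), SimpleGraph.dist_comm (u := w) (v := v),
    SimpleGraph.dist_comm (u := u) (v := v), add_comm]

theorem lk_comm (D : Data V) (v w : V) : D.lk v w = D.lk w v := by
  unfold Data.lk
  have hS : (univ.filter fun u => D.On v w u) = univ.filter fun u => D.On w v u := by
    ext u
    simp only [mem_filter, mem_univ, true_and]
    exact j1_on_comm D v w u
  rw [hS]
  refine prod_congr rfl fun u _ => ?_
  congr 1
  refine prod_congr ?_ fun _ _ => rfl
  ext x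
  simp only [mem_filter]
  rw [j1_on_comm]

private theorem j1_on_self {D : Data V} (h : D.IsGraph) (v u : V) : D.On v v u ↔ u = v := by
  unfold Data.On
  rw [SimpleGraph.dist_self]
  constructor
  · intro h0
    have h1 : D.graph.dist v u = 0 := by omega
    exact ((h.tree.connected.dist_eq_zero_iff).mp h1).symm
  · rintro rfl
    simp

theorem lk_self {D : Data V} (h : D.IsGraph) (v : V) :
    D.lk v v = D.sgn v * (∏ k ∈ D.leaf v, (k : ℤ)) * ∏ x ∈ D.nbr v, D.wt v x := by
  unfold Data.lk
  have hS : (univ.filter fun u => D.On v v u) = {v} := by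
    ext u
    simp only [mem_filter, mem_univ, true_and, mem_singleton]
    exact j1_on_self h v u
  rw [hS, prod_singleton]
  congr 1
  refine prod_congr ?_ fun _ _ => rfl
  refine filter_true_of_mem fun x hx => ?_
  rw [j1_on_self h]
  exact (mem_nbr.mp hx).ne'

private theorem j1_on_adj {D : Data V} (h : D.IsGraph) {v w : V} (hw : w ∈ D.nbr v) (u : V) :
    D.On v w u ↔ u = v ∨ u = w := by
  have hvw : D.graph.dist v w = 1 := SimpleGraph.dist_eq_one_iff_adj.mpr (mem_nbr.mp hw)
  unfold Data.On
  rw [hvw]
  constructor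
  · intro h0
    rcases Nat.eq_zero_or_pos (D.graph.dist v u) with h1 | h1
    · exact Or.inl ((h.tree.connected.dist_eq_zero_iff).mp h1).symm
    · have h2 : D.graph.dist u w = 0 := by omega
      exact Or.inr ((h.tree.connected.dist_eq_zero_iff).mp h2)
  · rintro (rfl | rfl)
    · rw [SimpleGraph.dist_self, hvw]
    · rw [SimpleGraph.dist_self, hvw]

theorem lk_adj {D : Data V} (h : D.IsGraph) {v w : V} (hw : w ∈ D.nbr v) :
    D.lk v w = oth D v w * oth D w v := by
  have hne : v ≠ w := (mem_nbr.mp hw).ne
  unfold Data.lk oth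
  have hS : (univ.filter fun u => D.On v w u) = {v, w} := by
    ext u
    simp only [mem_filter, mem_univ, true_and, mem_insert, mem_singleton]
    exact j1_on_adj h hw u
  have h1 : ((D.nbr v).filter fun x => ¬ D.On v w x) = (D.nbr v).erase w := by
    ext x
    simp only [mem_filter, mem_erase]
    rw [j1_on_adj h hw, not_or]
    constructor
    · rintro ⟨a, b, c⟩
      exact ⟨c, a⟩
    · rintro ⟨a, b⟩
      exact ⟨b, (mem_nbr.mp b).ne', a⟩
  have h2 : ((D.nbr w).filter fun x => ¬ D.On v w x) = (D.nbr w).erase v := by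
    ext x
    simp only [mem_filter, mem_erase]
    rw [j1_on_adj h hw, not_or]
    constructor
    · rintro ⟨a, b, c⟩
      exact ⟨b, a⟩
    · rintro ⟨a, b⟩
      exact ⟨b, a, (mem_nbr.mp b).ne'⟩
  rw [hS, prod_pair hne, h1, h2]

end Pool.Agent.OHG
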