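import Pool.Agent.OHG.Defs
import Pool.Agent.OHG.J1

set_option autoImplicit false

open PowerSeries Finset

namespace Pool.Agent.OHG

variable {V : Type} [Fintype V] [DecidableEq V]

theorem j2_zero {D : Data V} (h : D.IsGraph) {v : V} (h0 : D.lk v v = 0) :
    ∃ w ∈ D.nbr v, D.wt v w = 0 := by
  rw [lk_self h v] at h0
  have hs : D.sgn v ≠ 0 := by
    rcases h.sign v with h1 | h1 <;> rw [h1] <;> decide
  have hl : ∏ k ∈ D.leaf v, (k : ℤ) ≠ 0 := by
    refine Finset.prod_ne_zero_iff.2 fun k hk => ?_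
    have := h.two_le v k hk
    omega
  have h1 : ∏ x ∈ D.nbr v, D.wt v x = 0 := by
    rcases mul_eq_zero.1 h0 with h2 | h2
    · exact absurd h2 (mul_ne_zero hs hl)
    · exact h2
  exact Finset.prod_eq_zero_iff.1 h1

/-- If `ℓ_vv = 0` then one edge has the weight `0` and all other weights at `v` are `1` or `-1`;
the neighbour `w` along this edge has `ℓ_vw ≠ 0` because the edge determinant is not `0`. -/
theorem exists_lk_ne_zero {D : Data V} (h : D.IsGraph) (v : V) : ∃ w, D.lk v w ≠ 0 := by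
  by_cases h0 : D.lk v v = 0
  · obtain ⟨w, hw, hz⟩ := j2_zero h h0
    have := h.edge_det v w hw
    rw [hz, zero_mul] at this
    exact ⟨w, this.symm⟩
  · exact ⟨v, h0⟩

theorem j2_dvd_le {x y : ℤ} {B : ℕ} (hd : x ∣ y) (hy : y ≠ 0) (hB : |y| ≤ B) : |x| ≤ B := by
  refine le_trans ?_ hB
  have h1 : |x| ∣ |y| := (abs_dvd_abs x y).2 hd
  exact Int.le_of_dvd (abs_pos.2 hy) h1

theorem leaf_le {D : Data V} (h : D.IsGraph) {B : ℕ} (hB : ∀ v, |D.lk v v| ≤ B) {v : V} {k : ℕ}
    (hk : k ∈ D.leaf v) : k ≤ B := by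
  by_cases h0 : D.lk v v = 0
  · obtain ⟨w, hw, hz⟩ := j2_zero h h0
    have h1 := h.coprime_mixed v k hk w hw
    rw [hz, isCoprime_zero_right, Int.isUnit_iff] at h1
    have := h.two_le v k hk
    omega
  · have hd : (k : ℤ) ∣ D.lk v v := by
      rw [lk_self h v]
      exact Dvd.dvd.mul_right (Dvd.dvd.mul_left (Finset.dvd_prod_of_mem (fun k : ℕ => (k : ℤ)) hk) _) _
    have h1 := j2_dvd_le hd h0 (hB v)
    rw [abs_of_nonneg (Int.natCast_nonneg k)] at h1
    exact_mod_cast h1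

theorem wt_le {D : Data V} (h : D.IsGraph) {B : ℕ} (hB1 : 1 ≤ B) (hB : ∀ v, |D.lk v v| ≤ B)
    (v w : V) : |D.wt v w| ≤ B := by
  by_cases hw : w ∈ D.nbr v
  · by_cases h0 : D.lk v v = 0
    · obtain ⟨w', hw', hz⟩ := j2_zero h h0
      by_cases hww : w' = w
      · rw [← hww, hz, abs_zero]
        exact Int.natCast_nonneg B
      · have h1 := h.coprime_edge v w' hw' w hw hww
        rw [hz, isCoprime_zero_left, Int.isUnit_iff] at h1
        have hB' : (1 : ℤ) ≤ B := by exact_mod_cast hB1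
        rcases h1 with h1 | h1 <;> rw [h1] <;> simpa using hB'
    · have hd : D.wt v w ∣ D.lk v v := by
        rw [lk_self h v]
        exact Dvd.dvd.mul_left (Finset.dvd_prod_of_mem (fun x => D.wt v x) hw) _
      exact j2_dvd_le hd h0 (hB v)
  · rw [h.off v w hw, abs_zero]
    exact Int.natCast_nonneg B

end Pool.Agent.OHG
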