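import Pool.Agent.OHG.Defs
import Pool.Agent.OHG.J1
import Pool.Agent.OHG.J2

set_option autoImplicit false

open PowerSeries Finset

namespace Pool.Agent.OHG

variable {V : Type} [Fintype V] [DecidableEq V]

/-- The data of a prime as an element of a sigma type. -/
private def j4_f (P : Prime) : Σ n : ℕ, SimpleGraph (Fin (n + 1)) × (Fin (n + 1) → Finset ℕ) ×
    (Fin (n + 1) → ℤ) × (Fin (n + 1) → Fin (n + 1) → ℤ) :=
  ⟨P.n, P.D.graph, P.D.leaf, P.D.sgn, P.D.wt⟩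

private theorem j4_inj : Function.Injective j4_f := by
  rintro ⟨n, ⟨g, l, s, w⟩, h⟩ ⟨n', ⟨g', l', s', w'⟩, h'⟩ heq
  simp only [j4_f, Sigma.mk.injEq] at heq
  obtain ⟨rfl, heq⟩ := heq
  simp only [heq_eq_eq, Prod.mk.injEq] at heq
  obtain ⟨rfl, rfl, rfl, rfl⟩ := heq
  rfl

private theorem j4_rows {D : Data V} (h : D.IsGraph) {B : ℕ}
    (hB : ∑ v, ∑ w, (D.lk v w) ^ 2 ≤ (B : ℤ)) : Fintype.card V ≤ B := by
  have h1 : ∀ v ∈ (univ : Finset V), (1 : ℤ) ≤ ∑ w, (D.lk v w) ^ 2 := by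
    intro v _
    obtain ⟨w, hw⟩ := exists_lk_ne_zero h v
    have h2 : (D.lk v w) ^ 2 ≤ ∑ w, (D.lk v w) ^ 2 :=
      Finset.single_le_sum (f := fun w => (D.lk v w) ^ 2) (fun i _ => sq_nonneg _) (mem_univ w)
    have h3 : 0 < (D.lk v w) ^ 2 := by positivity
    omega
  have h4 := Finset.sum_le_sum h1
  rw [Finset.sum_const, Finset.card_univ, nsmul_eq_mul, mul_one] at h4
  exact_mod_cast h4.trans hB

private theorem j4_diag {D : Data V} {B : ℕ}
    (hB : ∑ v, ∑ w, (D.lk v w) ^ 2 ≤ (B : ℤ)) (v : V) : |D.lk v v| ≤ B := by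
  have h2 : (D.lk v v) ^ 2 ≤ ∑ w, (D.lk v w) ^ 2 :=
    Finset.single_le_sum (f := fun w => (D.lk v w) ^ 2) (fun i _ => sq_nonneg _) (mem_univ v)
  have h3 : ∑ w, (D.lk v w) ^ 2 ≤ ∑ v, ∑ w, (D.lk v w) ^ 2 :=
    Finset.single_le_sum (f := fun v => ∑ w, (D.lk v w) ^ 2)
      (fun i _ => Finset.sum_nonneg fun j _ => sq_nonneg _) (mem_univ v)
  have h4 : |D.lk v v| ≤ (D.lk v v) ^ 2 := by
    rw [← sq_abs]
    exact Int.le_self_sq _
  omega

theorem finite_prime (B : ℕ) : {P : Prime | ∑ v, ∑ w, (P.D.lk v w) ^ 2 ≤ (B : ℤ)}.Finite := by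
  let A : ∀ n : ℕ, Set (SimpleGraph (Fin (n + 1)) × (Fin (n + 1) → Finset ℕ) ×
    (Fin (n + 1) → ℤ) × (Fin (n + 1) → Fin (n + 1) → ℤ)) := fun n =>
    Set.univ ×ˢ (Set.pi Set.univ fun _ => {s : Finset ℕ | s ⊆ Finset.range (B + 1)}) ×ˢ
      (Set.pi Set.univ fun _ => ({1, -1} : Set ℤ)) ×ˢ
      (Set.pi Set.univ fun _ => Set.pi Set.univ fun _ => Set.Icc (-(B : ℤ)) B)
  have hA : ∀ n, (A n).Finite := by
    intro n
    refine Set.Finite.prod Set.finite_univ (Set.Finite.prod ?_ (Set.Finite.prod ?_ ?_))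
    · refine Set.Finite.pi fun _ => ?_
      have : {s : Finset ℕ | s ⊆ Finset.range (B + 1)} = ↑((Finset.range (B + 1)).powerset) := by
        ext s
        rw [Finset.mem_coe, Finset.mem_powerset]
        rfl
      rw [this]
      exact Finset.finite_toSet _
    · exact Set.Finite.pi fun _ => Set.toFinite _
    · exact Set.Finite.pi fun _ => Set.Finite.pi fun _ => Set.finite_Icc _ _
  refine Set.Finite.of_injOn (f := j4_f) (t := ⋃ n ∈ Finset.range (B + 1), Sigma.mk n '' (A n))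
    ?_ j4_inj.injOn ?_
  · rintro P hP
    have hP' : ∑ v, ∑ w, (P.D.lk v w) ^ 2 ≤ (B : ℤ) := hP
    have h1 := j4_rows P.isGraph hP'
    rw [Fintype.card_fin] at h1
    have h2 := j4_diag hP'
    rw [Set.mem_iUnion₂]
    refine ⟨P.n, Finset.mem_range.2 (by omega), _, ?_, rfl⟩
    refine ⟨Set.mem_univ _, ?_, ?_, ?_⟩
    · intro v _ k hk
      exact Finset.mem_range.2 (Nat.lt_succ_of_le (leaf_le P.isGraph h2 hk))
    · intro v _
      rcases P.isGraph.sign v with h | h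
      · left; exact h
      · right; exact h
    · intro v _ w _
      exact abs_le.1 (wt_le P.isGraph (by omega) h2 v w)
  · exact Set.Finite.biUnion (Finset.finite_toSet _) fun n _ => (hA n).image _

end Pool.Agent.OHG
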