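import Pool.Agent.OHG.Defs
import Pool.Agent.OHG.J1

set_option autoImplicit false

open PowerSeries Finset

namespace Pool.Agent.OHG

variable {V : Type} [Fintype V] [DecidableEq V]

private theorem j5_exists {n : ℕ} {D : Data (Fin (n + 1))} (h : D.IsGraph) :
    ∃ v, (D.nbr v).card ≤ 1 := by
  classical
  rcases Nat.eq_zero_or_pos n with rfl | hn
  · refine ⟨0, ?_⟩
    have h1 : (D.nbr 0) ⊆ univ := subset_univ _
    calc (D.nbr 0).card ≤ (univ : Finset (Fin (0 + 1))).card := card_le_card h1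
      _ = 1 := by simp
  · haveI : Nontrivial (Fin (n + 1)) := Fin.nontrivial_iff_two_le.2 (by omega)
    obtain ⟨v, hv⟩ := h.tree.exists_vert_degree_one_of_nontrivial
    refine ⟨v, le_of_eq ?_⟩
    have h1 : D.nbr v = D.graph.neighborFinset v := by
      ext w
      rw [mem_nbr, SimpleGraph.mem_neighborFinset]
    rw [h1, SimpleGraph.card_neighborFinset_eq_degree, hv]

private theorem j5_leaf {s : Finset ℕ} (h1 : ∀ k ∈ s, 2 ≤ k) (h2 : 2 ≤ s.card) :
    6 ≤ ∏ k ∈ s, k := by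
  obtain ⟨a, ha, b, hb, hab⟩ := Finset.one_lt_card.1 (show 1 < s.card by omega)
  have h3 : ∏ k ∈ ({a, b} : Finset ℕ), k ≤ ∏ k ∈ s, k := by
    apply Finset.prod_le_prod_of_subset_of_one_le'
    · intro x hx
      rw [Finset.mem_insert, Finset.mem_singleton] at hx
      rcases hx with rfl | rfl <;> assumption
    · intro i hi _
      have := h1 i hi
      omega
  rw [Finset.prod_pair hab] at h3
  have ha2 := h1 a ha
  have hb2 := h1 b hb
  rcases Nat.lt_or_gt_of_ne hab with h | h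
  · nlinarith
  · nlinarith

omit [DecidableEq V] in
private theorem j5_wt {D : Data V} (h : D.IsGraph) {v w : V} (hl : (D.leaf v).Nonempty)
    (hw : w ∈ D.nbr v) : D.wt v w ≠ 0 := by
  intro h0
  obtain ⟨k, hk⟩ := hl
  have h1 := h.coprime_mixed v k hk w hw
  rw [h0, isCoprime_zero_right, Int.isUnit_iff] at h1
  have h2 := h.two_le v k hk
  omega

theorem sum_sq_ge {n : ℕ} {D : Data (Fin (n + 1))} (h : D.IsGraph) :
    36 ≤ ∑ v, ∑ w, (D.lk v w) ^ 2 := by
  obtain ⟨v, hv⟩ := j5_exists h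
  have h2 : 2 ≤ (D.leaf v).card := by
    have := h.three_le v
    unfold Data.val at this
    omega
  have hne : (D.leaf v).Nonempty := Finset.card_pos.1 (by omega)
  have h6 := j5_leaf (h.two_le v) h2
  have h6' : (6 : ℤ) ≤ ∏ k ∈ D.leaf v, (k : ℤ) := by
    rw [← Nat.cast_prod]
    exact_mod_cast h6
  have hs : (D.sgn v) ^ 2 = 1 := by
    rcases h.sign v with h' | h' <;> rw [h'] <;> norm_num
  have hw0 : (∏ x ∈ D.nbr v, D.wt v x) ≠ 0 :=
    Finset.prod_ne_zero_iff.2 fun x hx => j5_wt h hne hx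
  have hw1 : 1 ≤ (∏ x ∈ D.nbr v, D.wt v x) ^ 2 := by
    have : 0 < (∏ x ∈ D.nbr v, D.wt v x) ^ 2 := by positivity
    omega
  have hlk : 36 ≤ (D.lk v v) ^ 2 := by
    rw [lk_self h, mul_pow, mul_pow, hs, one_mul]
    nlinarith
  calc (36 : ℤ) ≤ (D.lk v v) ^ 2 := hlk
    _ ≤ ∑ w, (D.lk v w) ^ 2 :=
      Finset.single_le_sum (f := fun w => (D.lk v w) ^ 2) (fun w _ => sq_nonneg _) (mem_univ v)
    _ ≤ ∑ v, ∑ w, (D.lk v w) ^ 2 :=
      Finset.single_le_sum (f := fun v => ∑ w, (D.lk v w) ^ 2)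
        (fun v _ => Finset.sum_nonneg fun w _ => sq_nonneg _) (mem_univ v)

end Pool.Agent.OHG
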