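import Pool.Agent.OHG.Defs
import Pool.Agent.OHG.J1

set_option autoImplicit false

open PowerSeries Finset

namespace Pool.Agent.OHG

variable {V : Type} [Fintype V] [DecidableEq V]

private theorem lap_apply (D : Data V) (p : MvPolynomial (V × Fin 3) ℝ) :
    lap D p = ∑ v, ∑ w, (D.lk v w : ℝ) • ∑ i : Fin 3,
      MvPolynomial.pderiv (v, i) (MvPolynomial.pderiv (w, i) p) := by
  simp [lap, LinearMap.sum_apply, LinearMap.smul_apply]

/-- The scalar product of `X_a` and `X_b`. -/
private noncomputable def bil (a b : V) : MvPolynomial (V × Fin 3) ℝ :=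
  ∑ i : Fin 3, MvPolynomial.X (a, i) * MvPolynomial.X (b, i)

private theorem nsq_eq (a : V) : nsq a = bil a a := by
  simp [nsq, bil, sq]

private theorem pd_bil (a b v : V) (i : Fin 3) : MvPolynomial.pderiv (v, i) (bil a b) =
    (if v = a then MvPolynomial.X (b, i) else 0) + (if v = b then MvPolynomial.X (a, i) else 0) := by
  unfold bil
  rw [map_sum]
  simp only [Derivation.leibniz, MvPolynomial.pderiv_X, smul_eq_mul]
  rw [Finset.sum_add_distrib, add_comm]
  congr 1
  · rw [Finset.sum_eq_single i]
    · by_cases h : v = a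
      · subst h
        simp
      · simp [h, Pi.single_apply, Ne.symm h]
    · intro j _ hj
      simp [Pi.single_apply, hj, Prod.ext_iff]
    · simp
  · rw [Finset.sum_eq_single i]
    · by_cases h : v = b
      · subst h
        simp
      · simp [h, Pi.single_apply, Ne.symm h]
    · intro j _ hj
      simp [Pi.single_apply, hj, Prod.ext_iff]
    · simp

private theorem lap_bil (D : Data V) (hc : ∀ v w, D.lk v w = D.lk w v) (a b : V) :
    lap D (bil a b) = MvPolynomial.C (6 * (D.lk a b : ℝ)) := by
  rw [lap_apply]
  have h : ∀ v w : V, (D.lk v w : ℝ) • ∑ i : Fin 3,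
      MvPolynomial.pderiv (v, i) (MvPolynomial.pderiv (w, i) (bil a b)) =
      (if w = a then (if v = b then MvPolynomial.C (3 * (D.lk a b : ℝ)) else 0) else 0) +
      (if w = b then (if v = a then MvPolynomial.C (3 * (D.lk a b : ℝ)) else 0) else 0) := by
    intro v w
    simp only [pd_bil, map_add]
    have e1 : ∀ i : Fin 3, MvPolynomial.pderiv (v, i)
        (if w = a then (MvPolynomial.X (b, i) : MvPolynomial (V × Fin 3) ℝ) else 0) =
        if w = a then (if v = b then 1 else 0) else 0 := by
      intro i
      split_ifs with h1 h2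
      · subst h2; simp
      · rw [MvPolynomial.pderiv_X, Pi.single_apply, if_neg (by simp [Ne.symm h2])]
      · simp
    have e2 : ∀ i : Fin 3, MvPolynomial.pderiv (v, i)
        (if w = b then (MvPolynomial.X (a, i) : MvPolynomial (V × Fin 3) ℝ) else 0) =
        if w = b then (if v = a then 1 else 0) else 0 := by
      intro i
      split_ifs with h1 h2
      · subst h2; simp
      · rw [MvPolynomial.pderiv_X, Pi.single_apply, if_neg (by simp [Ne.symm h2])]
      · simp
    simp only [e1, e2, Finset.sum_const, Finset.card_univ, Fintype.card_fin, nsmul_eq_mul]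
    rw [mul_add, smul_add]
    congr 1
    · split_ifs with h1 h2
      · subst h1; subst h2
        rw [hc w v] at *
        rw [MvPolynomial.smul_eq_C_mul, map_mul, map_ofNat]
        push_cast
        ring
      · simp
      · simp
    · split_ifs with h1 h2
      · subst h1; subst h2
        rw [MvPolynomial.smul_eq_C_mul, map_mul, map_ofNat]
        push_cast
        ring
      · simp
      · simp
  rw [Finset.sum_congr rfl fun v _ => Finset.sum_congr rfl fun w _ => h v w]
  simp only [Finset.sum_add_distrib, Finset.sum_ite_eq', Finset.mem_univ, if_true]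
  rw [← map_add]
  congr 1
  ring

private theorem lap_mul (D : Data V) (f g : MvPolynomial (V × Fin 3) ℝ) :
    lap D (f * g) = f * lap D g + g * lap D f + ∑ v, ∑ w, (D.lk v w : ℝ) • ∑ i : Fin 3,
      (MvPolynomial.pderiv (v, i) f * MvPolynomial.pderiv (w, i) g +
        MvPolynomial.pderiv (w, i) f * MvPolynomial.pderiv (v, i) g) := by
  simp only [lap_apply, Finset.mul_sum, ← Finset.sum_add_distrib, ← smul_add, mul_smul_comm,
    MvPolynomial.pderiv_mul, map_add]
  refine Finset.sum_congr rfl fun v _ => Finset.sum_congr rfl fun w _ => ?_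
  congr 1
  refine Finset.sum_congr rfl fun i _ => ?_
  ring

private theorem lap_bil_mul (D : Data V) (hc : ∀ v w, D.lk v w = D.lk w v) (a b : V) :
    lap D (bil a a * bil b b) = (6 * (D.lk b b : ℝ)) • bil a a + (6 * (D.lk a a : ℝ)) • bil b b +
      (8 * (D.lk a b : ℝ)) • bil a b := by
  rw [lap_mul, lap_bil D hc, lap_bil D hc]
  have h : ∀ v w : V, (D.lk v w : ℝ) • ∑ i : Fin 3,
      (MvPolynomial.pderiv (v, i) (bil a a) * MvPolynomial.pderiv (w, i) (bil b b) +
        MvPolynomial.pderiv (w, i) (bil a a) * MvPolynomial.pderiv (v, i) (bil b b)) =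
      (if w = b then (if v = a then (4 * (D.lk a b : ℝ)) • bil a b else 0) else 0) +
      (if w = a then (if v = b then (4 * (D.lk a b : ℝ)) • bil a b else 0) else 0) := by
    intro v w
    simp only [pd_bil]
    rw [Finset.sum_add_distrib, smul_add]
    congr 1
    · split_ifs with h1 h2 h3
      · subst h1; subst h2
        rw [mul_smul, smul_comm]
        congr 1
        rw [bil, Finset.smul_sum]
        refine Finset.sum_congr rfl fun i _ => ?_
        rw [MvPolynomial.smul_eq_C_mul, map_ofNat]
        ring
      all_goals simp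
    · split_ifs with h1 h2 h3
      · subst h1; subst h2
        rw [mul_smul, smul_comm, hc v w]
        congr 1
        rw [bil, Finset.smul_sum]
        refine Finset.sum_congr rfl fun i _ => ?_
        rw [MvPolynomial.smul_eq_C_mul, map_ofNat]
        ring
      all_goals simp
  rw [Finset.sum_congr rfl fun v _ => Finset.sum_congr rfl fun w _ => h v w]
  simp only [Finset.sum_add_distrib, Finset.sum_ite_eq', Finset.mem_univ, if_true]
  simp only [MvPolynomial.smul_eq_C_mul, map_mul, map_ofNat]
  ring

private theorem key (D : Data V) (hc : ∀ v w, D.lk v w = D.lk w v) (a b : V) :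
    MvPolynomial.constantCoeff ((lap D ^ 2) (nsq a * nsq b)) =
      72 * (D.lk a a : ℝ) * (D.lk b b : ℝ) + 48 * (D.lk a b : ℝ) ^ 2 := by
  rw [pow_two, Module.End.mul_apply, nsq_eq, nsq_eq, lap_bil_mul D hc, map_add (lap D),
    map_add (lap D), map_smul (lap D), map_smul (lap D), map_smul (lap D), lap_bil D hc,
    lap_bil D hc, lap_bil D hc]
  simp only [MvPolynomial.smul_eq_C_mul, map_add, map_mul, MvPolynomial.constantCoeff_C]
  ring

theorem moment_one (D : Data V) (v : V) :
    moment D (Pi.single v 1) = 6 * (D.lk v v : ℝ) := by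
  have h1 : (∑ u, (Pi.single v 1 : V → ℕ) u) = 1 := by simp
  have h2 : (∏ u, nsq u ^ (Pi.single v 1 : V → ℕ) u) = nsq v := by
    rw [Finset.prod_eq_single v] <;> simp +contextual [Pi.single_apply]
  unfold moment
  rw [h1, h2, pow_one, nsq_eq, lap_bil D (fun v w => lk_comm D v w)]
  simp

theorem moment_two (D : Data V) (v : V) :
    moment D (Pi.single v 2) = 60 * (D.lk v v : ℝ) ^ 2 := by
  have h1 : (∑ u, (Pi.single v 2 : V → ℕ) u) = 2 := by simp
  have h2 : (∏ u, nsq u ^ (Pi.single v 2 : V → ℕ) u) = nsq v * nsq v := by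
    rw [Finset.prod_eq_single v] <;> simp +contextual [Pi.single_apply, sq]
  unfold moment
  rw [h1, h2, key D (fun v w => lk_comm D v w)]
  norm_num
  ring

theorem moment_pair (D : Data V) {v w : V} (hvw : v ≠ w) :
    moment D (Pi.single v 1 + Pi.single w 1) =
      36 * (D.lk v v : ℝ) * (D.lk w w : ℝ) + 24 * (D.lk v w : ℝ) ^ 2 := by
  have h1 : (∑ u, (Pi.single v 1 + Pi.single w 1 : V → ℕ) u) = 2 := by
    simp [Finset.sum_add_distrib]
  have h2 : (∏ u, nsq u ^ (Pi.single v 1 + Pi.single w 1 : V → ℕ) u) = nsq v * nsq w := by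
    simp only [Pi.add_apply, pow_add, Finset.prod_mul_distrib]
    congr 1
    · rw [Finset.prod_eq_single v] <;> simp +contextual [Pi.single_apply]
    · rw [Finset.prod_eq_single w] <;> simp +contextual [Pi.single_apply]
  unfold moment
  rw [h1, h2, key D (fun v w => lk_comm D v w)]
  norm_num
  ring

end Pool.Agent.OHG
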