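import Pool.Agent.OHG.Defs

set_option autoImplicit false

open PowerSeries Finset

namespace Pool.Agent.OHG

variable {V : Type} [Fintype V] [DecidableEq V]

private lemma k2_coeff_mul (f g : ℝ⟦X⟧) (hf : coeff 0 f = 1) (hg : coeff 0 g = 1) :
    coeff 0 (f * g) = 1 ∧ coeff 1 (f * g) = coeff 1 f + coeff 1 g ∧
    coeff 2 (f * g) - (coeff 1 (f * g)) ^ 2 / 2 =
      (coeff 2 f - (coeff 1 f) ^ 2 / 2) + (coeff 2 g - (coeff 1 g) ^ 2 / 2) := by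
  have h0 : coeff 0 (f * g) = 1 := by
    rw [coeff_mul, Nat.antidiagonal_zero, sum_singleton, hf, hg, one_mul]
  have h1 : coeff 1 (f * g) = coeff 1 f + coeff 1 g := by
    rw [coeff_mul, Nat.antidiagonal_succ, sum_cons, Nat.antidiagonal_zero]
    simp only [Finset.map_singleton, sum_singleton, Function.Embedding.prodMap,
      Function.Embedding.coeFn_mk, Prod.map, Function.Embedding.refl_apply, Nat.succ_eq_add_one,
      zero_add]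
    rw [hf, hg]
    ring
  have h2 : coeff 2 (f * g) = coeff 2 f + coeff 1 f * coeff 1 g + coeff 2 g := by
    rw [coeff_mul]
    have e : antidiagonal 2 = {((0 : ℕ), (2 : ℕ)), (1, 1), (2, 0)} := by decide
    rw [e, sum_insert (by decide), sum_insert (by decide), sum_singleton]
    simp only []
    rw [hf, hg]
    ring
  refine ⟨h0, h1, ?_⟩
  rw [h1, h2]
  ring

private lemma k2_sinhc (k : ℕ) : coeff 0 (sinhc k) = 1 ∧ coeff 1 (sinhc k) = 1 / 24 * (1 / (k : ℝ) ^ 2) ∧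
    coeff 2 (sinhc k) - (coeff 1 (sinhc k)) ^ 2 / 2 = -(1 / 2880 * (1 / (k : ℝ) ^ 4)) := by
  have h1 : coeff 1 (sinhc k) = 1 / 24 * (1 / (k : ℝ) ^ 2) := by
    rw [sinhc, coeff_mk]
    have : (((2 * 1 + 1).factorial : ℕ) : ℝ) = 6 := by norm_num [Nat.factorial]
    rw [this]
    rw [one_div, one_div, one_div, mul_inv, mul_pow, mul_inv]
    norm_num
    ring
  have h2 : coeff 2 (sinhc k) = 1 / 1920 * (1 / (k : ℝ) ^ 4) := by
    rw [sinhc, coeff_mk]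
    have : (((2 * 2 + 1).factorial : ℕ) : ℝ) = 120 := by norm_num [Nat.factorial]
    rw [this]
    rw [one_div, one_div, one_div, mul_inv, mul_pow, mul_inv]
    norm_num
    ring
  refine ⟨?_, h1, ?_⟩
  · rw [sinhc, coeff_mk]
    simp
  · rw [h1, h2]
    have : (1 / (k : ℝ) ^ 4) = (1 / (k : ℝ) ^ 2) ^ 2 := by
      rw [div_pow, one_pow, ← pow_mul]
    rw [this]
    ring

private lemma k2_prod (S : Finset ℕ) : coeff 0 (∏ k ∈ S, sinhc k) = 1 ∧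
    coeff 1 (∏ k ∈ S, sinhc k) = 1 / 24 * ∑ k ∈ S, 1 / (k : ℝ) ^ 2 ∧
    coeff 2 (∏ k ∈ S, sinhc k) - (coeff 1 (∏ k ∈ S, sinhc k)) ^ 2 / 2 =
      -(1 / 2880 * ∑ k ∈ S, 1 / (k : ℝ) ^ 4) := by
  induction S using Finset.induction_on with
  | empty => simp [coeff_one]
  | insert a s ha ih =>
    rw [prod_insert ha, sum_insert ha, sum_insert ha]
    obtain ⟨i0, i1, i2⟩ := ih
    obtain ⟨s0, s1, s2⟩ := k2_sinhc a
    obtain ⟨m0, m1, m2⟩ := k2_coeff_mul _ _ s0 i0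
    refine ⟨m0, ?_, ?_⟩
    · rw [m1, s1, i1]; ring
    · rw [m2, s2, i2]; ring

private lemma k2_inv : coeff 0 ((sinhc 1)⁻¹) = 1 ∧ coeff 1 ((sinhc 1)⁻¹) = -(1 / 24) ∧
    coeff 2 ((sinhc 1)⁻¹) - (coeff 1 ((sinhc 1)⁻¹)) ^ 2 / 2 = 1 / 2880 := by
  obtain ⟨s0, s1, s2⟩ := k2_sinhc 1
  have hc : constantCoeff (sinhc 1) = 1 := by
    rw [← coeff_zero_eq_constantCoeff_apply]; exact s0
  have hne : constantCoeff (sinhc 1) ≠ 0 := by rw [hc]; exact one_ne_zero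
  have hmul := PowerSeries.mul_inv_cancel (sinhc 1) hne
  have i0 : coeff 0 ((sinhc 1)⁻¹) = 1 := by
    rw [coeff_zero_eq_constantCoeff_apply, constantCoeff_inv, hc, inv_one]
  obtain ⟨m0, m1, m2⟩ := k2_coeff_mul _ _ s0 i0
  rw [hmul] at m1 m2
  rw [s1] at m1
  rw [s2] at m2
  have o1 : coeff 1 (1 : ℝ⟦X⟧) = 0 := by simp [coeff_one]
  have o2 : coeff 2 (1 : ℝ⟦X⟧) = 0 := by simp [coeff_one]
  rw [o1] at m1 m2
  rw [o2] at m2
  refine ⟨i0, ?_, ?_⟩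
  · norm_num at m1 ⊢
    linarith
  · norm_num at m2 ⊢
    linarith

private lemma k2_pow (f : ℝ⟦X⟧) (hf : coeff 0 f = 1) (m : ℕ) : coeff 0 (f ^ m) = 1 ∧
    coeff 1 (f ^ m) = m * coeff 1 f ∧
    coeff 2 (f ^ m) - (coeff 1 (f ^ m)) ^ 2 / 2 = m * (coeff 2 f - (coeff 1 f) ^ 2 / 2) := by
  induction m with
  | zero => simp [coeff_one]
  | succ m ih =>
    rw [pow_succ]
    obtain ⟨i0, i1, i2⟩ := ih
    obtain ⟨m0, m1, m2⟩ := k2_coeff_mul _ _ i0 hf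
    refine ⟨m0, ?_, ?_⟩
    · rw [m1, i1]; push_cast; ring
    · rw [m2, i2]; push_cast; ring

private lemma k2_tel (n : ℕ) : ∑ k ∈ Icc 2 (n + 2), 1 / (k : ℝ) ^ 2 ≤ 3 / 4 - 1 / ((n : ℝ) + 2) := by
  induction n with
  | zero => norm_num
  | succ n ih =>
    rw [show n + 1 + 2 = (n + 2) + 1 by ring, Finset.sum_Icc_succ_top (by omega)]
    have hn : (0 : ℝ) < (n : ℝ) + 2 := by positivity
    have h1 : 1 / (((n + 2 + 1 : ℕ) : ℝ)) ^ 2 ≤ 1 / ((n : ℝ) + 2) - 1 / ((n : ℝ) + 3) := by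
      rw [div_sub_div _ _ (by positivity) (by positivity), div_le_div_iff₀ (by positivity)
        (by positivity)]
      push_cast
      nlinarith
    have e : (((n + 1 : ℕ) : ℝ) + 2) = (n : ℝ) + 3 := by push_cast; ring
    rw [e]
    linarith

private lemma k2_sum (S : Finset ℕ) (hS : ∀ k ∈ S, 2 ≤ k) :
    ∑ k ∈ S, 1 / (k : ℝ) ^ 2 ≤ 3 / 4 := by
  have hsub : S ⊆ Icc 2 (S.sup id + 2) := by
    intro k hk
    rw [mem_Icc]
    exact ⟨hS k hk, le_trans (Finset.le_sup (f := id) hk) (by omega)⟩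
  calc ∑ k ∈ S, 1 / (k : ℝ) ^ 2 ≤ ∑ k ∈ Icc 2 (S.sup id + 2), 1 / (k : ℝ) ^ 2 :=
        Finset.sum_le_sum_of_subset_of_nonneg hsub (fun k _ _ => by positivity)
    _ ≤ 3 / 4 - 1 / (((S.sup id : ℕ) : ℝ) + 2) := k2_tel _
    _ ≤ 3 / 4 := by
      have : (0 : ℝ) ≤ 1 / (((S.sup id : ℕ) : ℝ) + 2) := by positivity
      linarith

private lemma k2_sum4 (S : Finset ℕ) (hS : ∀ k ∈ S, 2 ≤ k) :
    ∑ k ∈ S, 1 / (k : ℝ) ^ 4 ≤ 3 / 4 := by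
  refine le_trans (Finset.sum_le_sum ?_) (k2_sum S hS)
  intro k hk
  have h2 : (2 : ℝ) ≤ k := by exact_mod_cast hS k hk
  apply one_div_le_one_div_of_le (by positivity)
  exact pow_le_pow_right₀ (by linarith) (by norm_num)

private lemma k2_nod (p : Finset ℕ) (m : ℕ) :
    coeff 0 ((∏ k ∈ p, sinhc k) * ((sinhc 1)⁻¹) ^ m) = 1 ∧
    coeff 1 ((∏ k ∈ p, sinhc k) * ((sinhc 1)⁻¹) ^ m) =
      1 / 24 * ((∑ k ∈ p, 1 / (k : ℝ) ^ 2) - m) ∧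
    coeff 2 ((∏ k ∈ p, sinhc k) * ((sinhc 1)⁻¹) ^ m) -
      (coeff 1 ((∏ k ∈ p, sinhc k) * ((sinhc 1)⁻¹) ^ m)) ^ 2 / 2 =
      1 / 2880 * (m - ∑ k ∈ p, 1 / (k : ℝ) ^ 4) := by
  obtain ⟨p0, p1, p2⟩ := k2_prod p
  obtain ⟨i0, i1, i2⟩ := k2_inv
  obtain ⟨q0, q1, q2⟩ := k2_pow _ i0 m
  obtain ⟨m0, m1, m2⟩ := k2_coeff_mul _ _ p0 q0
  refine ⟨m0, ?_, ?_⟩
  · rw [m1, p1, q1, i1]; ring
  · rw [m2, p2, q2, i2]; ring

theorem nod_zero (p : Finset ℕ) (m : ℕ) :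
    coeff 0 ((∏ k ∈ p, sinhc k) * ((sinhc 1)⁻¹) ^ m) = 1 := (k2_nod p m).1

theorem nod_one {p : Finset ℕ} (hp : ∀ k ∈ p, 2 ≤ k) {m : ℕ} (hm : 1 ≤ m) :
    coeff 1 ((∏ k ∈ p, sinhc k) * ((sinhc 1)⁻¹) ^ m) ≤ -(1 / 96) := by
  rw [(k2_nod p m).2.1]
  have h1 := k2_sum p hp
  have h2 : (1 : ℝ) ≤ m := by exact_mod_cast hm
  linarith

theorem nod_two {p : Finset ℕ} (hp : ∀ k ∈ p, 2 ≤ k) {m : ℕ} (hm : 1 ≤ m) :
    (coeff 1 ((∏ k ∈ p, sinhc k) * ((sinhc 1)⁻¹) ^ m)) ^ 2 / 2 ≤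
      coeff 2 ((∏ k ∈ p, sinhc k) * ((sinhc 1)⁻¹) ^ m) := by
  have h := (k2_nod p m).2.2
  have h1 := k2_sum p hp
  have h2 : (1 : ℝ) ≤ m := by exact_mod_cast hm
  have h3 : ∑ k ∈ p, 1 / (k : ℝ) ^ 4 ≤ ∑ k ∈ p, 1 / (k : ℝ) ^ 2 := by
    refine Finset.sum_le_sum fun k hk => ?_
    have hk2 : (2 : ℝ) ≤ k := by exact_mod_cast hp k hk
    apply one_div_le_one_div_of_le (by positivity)
    apply pow_le_pow_right₀ (by linarith) (by norm_num)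
  linarith

end Pool.Agent.OHG
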