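import Pool.Agent.OHG.Defs

set_option autoImplicit false

open PowerSeries Finset

namespace Pool.Agent.OHG

variable {V : Type} [Fintype V] [DecidableEq V]

/-- The primitive part in degree two. -/
noncomputable def v2 (f : ℝ⟦X⟧) : ℝ := coeff 2 f - (coeff 1 f) ^ 2 / 2

theorem k4_coeff_one (f g : ℝ⟦X⟧) :
    coeff 1 (f * g) = coeff 0 f * coeff 1 g + coeff 1 f * coeff 0 g := by
  rw [coeff_mul, Finset.Nat.antidiagonal_succ]
  simp

theorem k4_coeff_two (f g : ℝ⟦X⟧) :
    coeff 2 (f * g) = coeff 0 f * coeff 2 g + coeff 1 f * coeff 1 g + coeff 2 f * coeff 0 g := by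
  rw [coeff_mul, Finset.Nat.antidiagonal_succ, Finset.sum_cons, Finset.sum_map,
    Finset.Nat.antidiagonal_succ]
  simp [add_assoc]

theorem k4_coeff_zero (f g : ℝ⟦X⟧) : coeff 0 (f * g) = coeff 0 f * coeff 0 g := by
  simp [coeff_mul]

theorem v2_mul {f g : ℝ⟦X⟧} (hf : coeff 0 f = 1) (hg : coeff 0 g = 1) :
    v2 (f * g) = v2 f + v2 g := by
  unfold v2
  rw [k4_coeff_one, k4_coeff_two, hf, hg]
  ring

theorem v2_exp (κ : ℝ) : v2 (rescale κ (exp ℝ)) = 0 := by
  unfold v2
  rw [coeff_rescale, coeff_rescale, coeff_exp, coeff_exp]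
  simp
  ring

theorem k4_half_zero : coeff 0 sinhcHalf = (1 : ℝ) := by
  simp [sinhcHalf]

theorem k4_half : v2 sinhcHalf = 1 / 24 := by
  have h1 : coeff 1 sinhcHalf = (0 : ℝ) := by
    simp [sinhcHalf]
  have h2 : coeff 2 sinhcHalf = (1 / 24 : ℝ) := by
    rw [sinhcHalf, coeff_mk, if_pos (by decide)]
    norm_num [Nat.factorial]
  unfold v2
  rw [h1, h2]
  norm_num

theorem v2_sinhcHalf_inv : v2 sinhcHalf⁻¹ = -(1 / 24) := by
  have h0 : constantCoeff sinhcHalf ≠ (0 : ℝ) := by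
    rw [← coeff_zero_eq_constantCoeff_apply, k4_half_zero]
    norm_num
  have h1 : sinhcHalf * sinhcHalf⁻¹ = 1 := PowerSeries.mul_inv_cancel _ h0
  have h2 : coeff 0 sinhcHalf⁻¹ = (1 : ℝ) := by
    have h3 := congrArg (coeff 0) h1
    rw [k4_coeff_zero, k4_half_zero, one_mul, coeff_zero_one] at h3
    exact h3
  have h4 := v2_mul k4_half_zero h2
  rw [h1, k4_half] at h4
  have h5 : v2 (1 : ℝ⟦X⟧) = 0 := by
    unfold v2
    rw [coeff_one, coeff_one]
    norm_num
  rw [h5] at h4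
  linarith

theorem v2_prod {ι : Type} (M : Multiset ι) (f : ι → ℝ⟦X⟧) (hf : ∀ i ∈ M, coeff 0 (f i) = 1) :
    v2 (M.map f).prod = (M.map fun i => v2 (f i)).sum ∧ coeff 0 (M.map f).prod = 1 := by
  induction M using Multiset.induction_on with
  | empty =>
    refine ⟨?_, ?_⟩
    · rw [Multiset.map_zero, Multiset.prod_zero, Multiset.map_zero, Multiset.sum_zero]
      unfold v2
      rw [coeff_one, coeff_one]
      norm_num
    · rw [Multiset.map_zero, Multiset.prod_zero, coeff_zero_one]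
  | cons a M ih =>
    obtain ⟨h1, h2⟩ := ih fun i hi => hf i (Multiset.mem_cons_of_mem hi)
    have h3 := hf a (Multiset.mem_cons_self a M)
    refine ⟨?_, ?_⟩
    · rw [Multiset.map_cons, Multiset.prod_cons, Multiset.map_cons, Multiset.sum_cons,
        v2_mul h3 h2, h1]
    · rw [Multiset.map_cons, Multiset.prod_cons, k4_coeff_zero, h3, h2, mul_one]

end Pool.Agent.OHG
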