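import Pool.Agent.OHG.J1
import Pool.Agent.OHG.J2
import Pool.Agent.OHG.J4
import Pool.Agent.OHG.J5
import Pool.Agent.OHG.K1
import Pool.Agent.OHG.K2
import Pool.Agent.OHG.K3
import Pool.Agent.OHG.K4
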