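import Pool.Agent.OHG.All

/-!
# The degree two part of the Ohtsuki series is proper on the graph homology spheres
-/

set_option autoImplicit false

open PowerSeries Finset

namespace Pool.Agent.OHG

theorem coeff_zero_factor (P : Prime) : coeff 0 (sinhcHalf⁻¹ * part P.D) = 1 := by
  have h1 : coeff 0 sinhcHalf⁻¹ = 1 := by
    rw [coeff_zero_eq_constantCoeff_apply, PowerSeries.constantCoeff_inv]
    unfold sinhcHalf
    rw [← coeff_zero_eq_constantCoeff_apply, coeff_mk]
    simp
  have h2 := part_zero P.D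
  rw [coeff_zero_eq_constantCoeff_apply] at h1 h2 ⊢
  rw [map_mul, h1, h2, one_mul]

theorem v2_series (κ : ℝ) (M : Multiset Prime) :
    v2 (series κ M) = (M.map fun P => v2 (part P.D) - 1 / 24).sum := by
  unfold series
  obtain ⟨h1, h2⟩ := v2_prod M (fun P => sinhcHalf⁻¹ * part P.D)
    fun P _ => coeff_zero_factor P
  have h3 : coeff 0 (rescale κ (exp ℝ)) = 1 := by
    rw [coeff_rescale, coeff_exp]
    simp
  rw [v2_mul h3 h2, v2_exp, zero_add, h1]
  congr 1
  refine Multiset.map_congr rfl fun P _ => ?_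
  have h4 : coeff 0 sinhcHalf⁻¹ = 1 := by
    rw [coeff_zero_eq_constantCoeff_apply, PowerSeries.constantCoeff_inv]
    unfold sinhcHalf
    rw [← coeff_zero_eq_constantCoeff_apply, coeff_mk]
    simp
  rw [v2_mul h4 (part_zero P.D), v2_sinhcHalf_inv]
  ring

/-- Each prime summand contributes at least `1 / 192` and controls its linking numbers. -/
theorem prime_ge (P : Prime) : (1 / 192 : ℝ) ≤ v2 (part P.D) - 1 / 24 ∧
    (∑ v, ∑ w, ((P.D.lk v w : ℤ) : ℝ) ^ 2) ≤ 768 * (v2 (part P.D) - 1 / 24) + 32 := by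
  have h1 := part_two P.isGraph
  have h2 : (36 : ℝ) ≤ ∑ v, ∑ w, ((P.D.lk v w : ℤ) : ℝ) ^ 2 := by
    have := sum_sq_ge P.isGraph
    exact_mod_cast this
  have h3 : v2 (part P.D) = coeff 2 (part P.D) - (coeff 1 (part P.D)) ^ 2 / 2 := rfl
  constructor
  · rw [h3]
    linarith
  · rw [h3]
    linarith

theorem sum_ge (M : Multiset Prime) :
    (M.card : ℝ) / 192 ≤ (M.map fun P => v2 (part P.D) - 1 / 24).sum := by
  induction M using Multiset.induction_on with
  | empty => simp
  | cons P M ih =>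
    rw [Multiset.card_cons, Multiset.map_cons, Multiset.sum_cons]
    have := (prime_ge P).1
    push_cast
    linarith

theorem mem_le (M : Multiset Prime) (P : Prime) (hP : P ∈ M) :
    v2 (part P.D) - 1 / 24 ≤ (M.map fun P => v2 (part P.D) - 1 / 24).sum := by
  obtain ⟨M', rfl⟩ := Multiset.exists_cons_of_mem hP
  rw [Multiset.map_cons, Multiset.sum_cons]
  have h1 := sum_ge M'
  have h2 : (0 : ℝ) ≤ (M'.card : ℝ) / 192 := by positivity
  linarith

theorem positive (κ : ℝ) (M : Multiset Prime) (hM : M ≠ 0) :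
    0 < coeff 2 (series κ M) - (coeff 1 (series κ M)) ^ 2 / 2 := by
  have h1 : coeff 2 (series κ M) - (coeff 1 (series κ M)) ^ 2 / 2 = v2 (series κ M) := rfl
  rw [h1, v2_series]
  have h2 := sum_ge M
  have h3 : (1 : ℝ) ≤ M.card := by
    exact_mod_cast Nat.one_le_iff_ne_zero.2 (fun h0 => hM (Multiset.card_eq_zero.1 h0))
  linarith [show (0 : ℝ) < (M.card : ℝ) / 192 by positivity]

theorem finite (c : ℝ) : {M : Multiset Prime |
    ∃ κ, coeff 2 (series κ M) - (coeff 1 (series κ M)) ^ 2 / 2 ≤ c}.Finite := by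
  obtain ⟨B, hB⟩ := exists_nat_ge (768 * c + 32)
  obtain ⟨K, hK⟩ := exists_nat_ge (192 * c)
  have hT := finite_prime B
  have hfin : {M : Multiset Prime | M.card ≤ K ∧ ∀ P ∈ M,
      P ∈ {P : Prime | ∑ v, ∑ w, (P.D.lk v w) ^ 2 ≤ (B : ℤ)}}.Finite := by
    classical
    obtain ⟨T, hTT⟩ := hT.exists_finset_coe
    refine Set.Finite.subset (Multiset.finite_toSet (K • T.val).powerset) ?_
    rintro M ⟨h1, h2⟩
    change M ∈ (K • T.val).powerset
    rw [Multiset.mem_powerset, Multiset.le_iff_count]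
    intro P
    rw [Multiset.count_nsmul]
    by_cases hP : P ∈ M
    · have h3 : P ∈ T := by
        have := h2 P hP
        rw [← hTT] at this
        exact this
      rw [Multiset.count_eq_one_of_mem T.nodup h3, mul_one]
      exact (Multiset.count_le_card P M).trans h1
    · rw [Multiset.count_eq_zero_of_notMem hP]
      exact Nat.zero_le _
  refine hfin.subset ?_
  rintro M ⟨κ, hκ⟩
  have h1 : coeff 2 (series κ M) - (coeff 1 (series κ M)) ^ 2 / 2 = v2 (series κ M) := rfl
  rw [h1, v2_series] at hκ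
  have h2 := sum_ge M
  refine ⟨?_, fun P hP => ?_⟩
  · have : (M.card : ℝ) ≤ K := by linarith
    exact_mod_cast this
  · have h3 := mem_le M P hP
    have h4 := (prime_ge P).2
    have h5 : (∑ v, ∑ w, ((P.D.lk v w : ℤ) : ℝ) ^ 2) ≤ (B : ℝ) := by linarith
    simp only [Set.mem_ofPred_eq]
    exact_mod_cast h5

end Pool.Agent.OHG
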