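import Mathlib

/-!
# The Ohtsuki series of the graph integral homology spheres
-/

set_option autoImplicit false

open PowerSeries Finset

namespace Pool.Agent.OHG

/-- The data of a splice diagram with the set of nodes `V`: the graph of the nodes, the set
`leaf v` of the absolute values of the weights of the leaves at the node `v`, the sign `sgn v` of
the node and the (integral) weight `wt v w` at `v` of the edge from `v` to `w`. -/
structure Data (V : Type) where
  graph : SimpleGraph V
  leaf : V → Finset ℕ
  sgn : V → ℤ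
  wt : V → V → ℤ

namespace Data

variable {V : Type} [Fintype V] [DecidableEq V] (D : Data V)

/-- The neighbours of a node. -/
noncomputable def nbr (v : V) : Finset V := by
  classical exact univ.filter fun w => D.graph.Adj v w

/-- The valence of a node: the number of its leaves and of its edges. -/
noncomputable def val (v : V) : ℕ := (D.leaf v).card + (D.nbr v).card

/-- The node `u` lies on the path from `v` to `w`. -/
def On (v w u : V) : Prop := D.graph.dist v u + D.graph.dist u w = D.graph.dist v w

noncomputable instance (v w u : V) : Decidable (D.On v w u) := Classical.dec _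

/-- The linking number `ℓ_vw`: the product of the signs of the nodes on the path from `v` to `w`
and of all weights which are adjacent to, but not on, this path; in particular `ℓ_vv` is the
product of the sign of `v` and of all weights at `v`. -/
noncomputable def lk (v w : V) : ℤ :=
  ∏ u with D.On v w u,
    (D.sgn u * (∏ k ∈ D.leaf u, (k : ℤ)) * ∏ x ∈ D.nbr u with ¬ D.On v w x, D.wt u x)

/-- The splice diagrams of the prime graph integral homology spheres other than `S³` (Eisenbud,
Neumann): the nodes form a tree, the weights at each node are pairwise coprime (the weight of an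
edge may be `0` or negative), the weights of the leaves are `≥ 2` in absolute value, the valences
are `≥ 3` and the edge determinants are not `0`. -/
structure IsGraph : Prop where
  tree : D.graph.IsTree
  sign : ∀ v, D.sgn v = 1 ∨ D.sgn v = -1
  two_le : ∀ v, ∀ k ∈ D.leaf v, 2 ≤ k
  coprime_leaf : ∀ v, ∀ k ∈ D.leaf v, ∀ l ∈ D.leaf v, k ≠ l → Nat.Coprime k l
  coprime_mixed : ∀ v, ∀ k ∈ D.leaf v, ∀ w ∈ D.nbr v, IsCoprime (k : ℤ) (D.wt v w)
  coprime_edge : ∀ v, ∀ w ∈ D.nbr v, ∀ x ∈ D.nbr v, w ≠ x → IsCoprime (D.wt v w) (D.wt v x)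
  three_le : ∀ v, 3 ≤ D.val v
  edge_det : ∀ v, ∀ w ∈ D.nbr v, D.wt v w * D.wt w v ≠ D.lk v w
  off : ∀ v w, w ∉ D.nbr v → D.wt v w = 0

end Data

/-- `sinhc (x / (2 k)) = sinh (x / (2 k)) / (x / (2 k))` as a power series in `y = x ^ 2`. -/
noncomputable def sinhc (k : ℕ) : ℝ⟦X⟧ :=
  PowerSeries.mk fun m => 1 / ((2 * k : ℝ) ^ (2 * m) * (2 * m + 1).factorial)

/-- `sinh (ħ / 2) / (ħ / 2)` as a power series in `ħ`. -/
noncomputable def sinhcHalf : ℝ⟦X⟧ :=
  PowerSeries.mk fun n => if Even n then (1 / 2) ^ n / (n + 1).factorial else 0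

variable {V : Type} [Fintype V] [DecidableEq V]

/-- The integrand at the node `v`, as a power series in `y = x ^ 2`: the product of
`sinhc (x / (2 k))` over the weights `k` of the leaves at `v`, divided by
`sinhc (x / 2) ^ (val v - 2)`. -/
noncomputable def node (D : Data V) (v : V) : ℝ⟦X⟧ :=
  (∏ k ∈ D.leaf v, sinhc k) * ((sinhc 1)⁻¹) ^ (D.val v - 2)

/-- The operator `∑ ℓ_vw ∂_v · ∂_w` on the polynomials in the coordinates of the vectors `X_v` in
`ℝ³`. -/
noncomputable def lap (D : Data V) :
    MvPolynomial (V × Fin 3) ℝ →ₗ[ℝ] MvPolynomial (V × Fin 3) ℝ :=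
  ∑ v, ∑ w, (D.lk v w : ℝ) • ∑ i : Fin 3,
    (MvPolynomial.pderiv (v, i)).toLinearMap ∘ₗ (MvPolynomial.pderiv (w, i)).toLinearMap

/-- The polynomial `|X_v| ^ 2`. -/
noncomputable def nsq (v : V) : MvPolynomial (V × Fin 3) ℝ := ∑ i, MvPolynomial.X (v, i) ^ 2

/-- The formal moment `E ∏ |X_v| ^ (2 j_v)` of the centred Gaussian vector `(X_v)`, `X_v ∈ ℝ³`, with
the covariance matrix `2 ℓ_vw` for each of the three coordinates, which are independent; by Wick's
theorem it is the value at `0` of `(∑ ℓ_vw ∂_v · ∂_w) ^ n / n!` applied to `∏ |X_v| ^ (2 j_v)`,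
where `n = ∑ j_v`. -/
noncomputable def moment (D : Data V) (j : V → ℕ) : ℝ :=
  MvPolynomial.constantCoeff (((lap D) ^ (∑ v, j v)) (∏ v, nsq v ^ j v)) / (∑ v, j v).factorial

/-- The formal Gaussian integral `E ∏ node_v(ħ |X_v| ^ 2)`. -/
noncomputable def part (D : Data V) : ℝ⟦X⟧ :=
  PowerSeries.mk fun n => ∑ j ∈ (univ : Finset V).piAntidiag n,
    (∏ v, coeff (j v) (node D v)) * moment D j

/-- The prime graph integral homology spheres other than `S³`, given by splice diagrams. -/
structure Prime : Type where
  n : ℕ
  D : Data (Fin (n + 1))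
  isGraph : D.IsGraph

/-- The Ohtsuki series of the connected sum of the members of `M`, where `κ` is the constant in the
exponential factor (the sum of the constants of the members). -/
noncomputable def series (κ : ℝ) (M : Multiset Prime) : ℝ⟦X⟧ :=
  rescale κ (exp ℝ) * (M.map fun P => sinhcHalf⁻¹ * part P.D).prod

end Pool.Agent.OHG
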